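import Pool.Agent.Q201.AR.Stm3

/-!
# The set of bounded codes is arithmetical (job B0A of the project AR of helper201; author: helper247)
-/

set_option autoImplicit false

namespace Q247.AR

open Q201.AR

/-! ### Closure properties of the arithmetical predicates -/

section closure

variable (h : S_ARCL)
include h

lemma ar_not {α : Type} [Primcodable α] {P : α → Prop} (hP : Arith P) : Arith fun a => ¬ P a :=
  h.2.2.1 α P hP

lemma ar_and {α : Type} [Primcodable α] {P Q : α → Prop} (hP : Arith P) (hQ : Arith Q) :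
    Arith fun a => P a ∧ Q a :=
  h.2.2.2.1 α P Q hP hQ

lemma ar_or {α : Type} [Primcodable α] {P Q : α → Prop} (hP : Arith P) (hQ : Arith Q) :
    Arith fun a => P a ∨ Q a := by
  have h1 := ar_not h (ar_and h (ar_not h hP) (ar_not h hQ))
  have h2 : (fun a => P a ∨ Q a) = fun a => ¬ (¬ P a ∧ ¬ Q a) := by
    funext a
    exact propext (by tauto)
  rw [h2]
  exact h1

lemma ar_ex {α : Type} [Primcodable α] (β : Type) [Primcodable β] {P : α × β → Prop}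
    (hP : Arith P) : Arith fun a => ∃ b, P (a, b) :=
  h.2.2.2.2 α β P hP

lemma ar_all {α : Type} [Primcodable α] (β : Type) [Primcodable β] {P : α × β → Prop}
    (hP : Arith P) : Arith fun a => ∀ b, P (a, b) := by
  have h1 := ar_not h (ar_ex h β (ar_not h hP))
  have h2 : (fun a => ∀ b, P (a, b)) = fun a => ¬ ∃ b, ¬ P (a, b) := by
    funext a
    exact propext (by push Not; rfl)
  rw [h2]
  exact h1

lemma ar_imp {α : Type} [Primcodable α] {P Q : α → Prop} (hP : Arith P) (hQ : Arith Q) :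
    Arith fun a => P a → Q a := by
  have h1 := ar_or h (ar_not h hP) hQ
  have h2 : (fun a => P a → Q a) = fun a => ¬ P a ∨ Q a := by
    funext a
    exact propext (by tauto)
  rw [h2]
  exact h1

lemma ar_prim {α : Type} [Primcodable α] {P : α → Prop} (hP : PrimrecPred P) : Arith P := by
  refine h.2.1 α P ?_
  obtain ⟨hd, hp⟩ := hP
  exact ⟨hd, hp.to_comp⟩

lemma ar_eq {α : Type} [Primcodable α] {f g : α → ℕ} (hf : Primrec f) (hg : Primrec g) :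
    Arith fun a => f a = g a :=
  ar_prim h (Primrec.eq.comp hf hg)

lemma ar_mem {α : Type} [Primcodable α] {f : α → ℕ} {g : α → List ℕ} (hf : Primrec f)
    (hg : Primrec g) : Arith fun a => f a ∈ g a := by
  have h1 : (fun a => f a ∈ g a) = fun a => (g a).idxOf (f a) < (g a).length := by
    funext a
    exact propext List.idxOf_lt_length_iff.symm
  rw [h1]
  exact ar_prim h (Primrec.nat_lt.comp (Primrec.list_idxOf.comp hf hg)
    (Primrec.list_length.comp hg))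

end closure

/-! ### The constructors are primitive recursive -/

section prim

variable {α : Type} [Primcodable α] {f g k : α → ℕ}

lemma p8 (n : ℕ) (hf : Primrec f) : Primrec fun a => 8 * f a + n :=
  Primrec.nat_add.comp (Primrec.nat_mul.comp (Primrec.const 8) hf) (Primrec.const n)

lemma p_cz (hf : Primrec f) : Primrec fun a => cz (f a) := p8 0 hf

lemma p_co (hf : Primrec f) : Primrec fun a => co (f a) := p8 1 hf

lemma p_clt (hf : Primrec f) (hg : Primrec g) : Primrec fun a => clt (f a) (g a) :=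
  p8 3 (Primrec₂.natPair.comp hf hg)

lemma p_cad (hf : Primrec f) (hg : Primrec g) (hk : Primrec k) :
    Primrec fun a => cad (f a) (g a) (k a) :=
  p8 4 (Primrec₂.natPair.comp hf (Primrec₂.natPair.comp hg hk))

lemma p_cml (hf : Primrec f) (hg : Primrec g) (hk : Primrec k) :
    Primrec fun a => cml (f a) (g a) (k a) :=
  p8 5 (Primrec₂.natPair.comp hf (Primrec₂.natPair.comp hg hk))

lemma p_cnor (hf : Primrec f) (hg : Primrec g) : Primrec fun a => cnor (f a) (g a) :=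
  p8 6 (Primrec₂.natPair.comp hf hg)

lemma p_cex (hf : Primrec f) (hg : Primrec g) : Primrec fun a => cex (f a) (g a) :=
  p8 7 (Primrec₂.natPair.comp hf hg)

lemma p_cneg (hf : Primrec f) : Primrec fun a => cneg (f a) := p_cnor hf hf

lemma p_cand (hf : Primrec f) (hg : Primrec g) : Primrec fun a => cand (f a) (g a) :=
  p_cnor (p_cneg hf) (p_cneg hg)

end prim

/-! ### The parts of a code are smaller -/

lemma lt_cnor_left (a b : ℕ) : a < cnor a b := by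
  have := Nat.left_le_pair a b
  unfold cnor
  omega

lemma lt_cnor_right (a b : ℕ) : b < cnor a b := by
  have := Nat.right_le_pair a b
  unfold cnor
  omega

lemma lt_cex_cand (k u a : ℕ) : a < cex k (cand u a) := by
  have h1 : a < cneg a := lt_cnor_left a a
  have h2 : cneg a < cand u a := lt_cnor_right _ _
  have h3 := Nat.right_le_pair k (cand u a)
  have h4 : cex k (cand u a) = 8 * Nat.pair k (cand u a) + 7 := rfl
  omega

/-! ### Lists of bounded codes -/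

/-- `x` is a bounded code if the members of `L` are -/
def Lc (x : ℕ) (L : List ℕ) : Prop :=
  x % 8 < 6 ∨ (∃ q : ℕ × ℕ, x = cnor q.1 q.2 ∧ q.1 ∈ L ∧ q.2 ∈ L) ∨
  (∃ q : ℕ × ℕ × ℕ, ¬ q.1 = q.2.1 ∧ x = cex q.1 (cand (clt q.1 q.2.1) q.2.2) ∧ q.2.2 ∈ L) ∨
  (∃ q : ℕ × ℕ × ℕ × ℕ, ¬ q.2.2.1 = q.1 ∧ ¬ q.2.2.1 = q.2.1 ∧
    x = cex q.2.2.1 (cand (cad q.1 q.2.1 q.2.2.1) q.2.2.2) ∧ q.2.2.2 ∈ L) ∨
  (∃ q : ℕ × ℕ × ℕ × ℕ, ¬ q.2.2.1 = q.1 ∧ ¬ q.2.2.1 = q.2.1 ∧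
    x = cex q.2.2.1 (cand (cml q.1 q.2.1 q.2.2.1) q.2.2.2) ∧ q.2.2.2 ∈ L) ∨
  (∃ q : ℕ × ℕ, x = cex q.1 (cand (cz q.1) q.2) ∧ q.2 ∈ L) ∨
  (∃ q : ℕ × ℕ, x = cex q.1 (cand (co q.1) q.2) ∧ q.2 ∈ L)

lemma Lc.mono {x : ℕ} {L L' : List ℕ} (hL : ∀ y ∈ L, y ∈ L') (hx : Lc x L) : Lc x L' := by
  rcases hx with hx | ⟨q, h1, h2, h3⟩ | ⟨q, h1, h2, h3⟩ | ⟨q, h1, h2, h3, h4⟩ |
    ⟨q, h1, h2, h3, h4⟩ | ⟨q, h1, h2⟩ | ⟨q, h1, h2⟩
  · exact Or.inl hx
  · exact Or.inr (Or.inl ⟨q, h1, hL _ h2, hL _ h3⟩)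
  · exact Or.inr (Or.inr (Or.inl ⟨q, h1, h2, hL _ h3⟩))
  · exact Or.inr (Or.inr (Or.inr (Or.inl ⟨q, h1, h2, h3, hL _ h4⟩)))
  · exact Or.inr (Or.inr (Or.inr (Or.inr (Or.inl ⟨q, h1, h2, h3, hL _ h4⟩))))
  · exact Or.inr (Or.inr (Or.inr (Or.inr (Or.inr (Or.inl ⟨q, h1, hL _ h2⟩)))))
  · exact Or.inr (Or.inr (Or.inr (Or.inr (Or.inr (Or.inr ⟨q, h1, hL _ h2⟩)))))

/-- every member of the list is a bounded code -/
def Gd (L : List ℕ) : Prop := ∀ x, x ∈ L → Lc x L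

lemma Gd.app {L L' : List ℕ} (h : Gd L) (h' : Gd L') : Gd (L ++ L') := by
  intro x hx
  rcases List.mem_append.1 hx with hx | hx
  · exact (h x hx).mono fun y hy => List.mem_append_left _ hy
  · exact (h' x hx).mono fun y hy => List.mem_append_right _ hy

lemma Gd.cons {L : List ℕ} (h : Gd L) {x : ℕ} (hx : Lc x L) : Gd (x :: L) := by
  intro y hy
  rcases List.mem_cons.1 hy with rfl | hy
  · exact hx.mono fun z hz => List.mem_cons_of_mem _ hz
  · exact (h y hy).mono fun z hz => List.mem_cons_of_mem _ hz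

lemma exists_list {c : ℕ} (hc : B0 c) : ∃ L, c ∈ L ∧ Gd L := by
  induction hc with
  | atom c h =>
    refine ⟨[c], List.mem_singleton_self _, fun x hx => ?_⟩
    rw [List.mem_singleton.1 hx]
    exact Or.inl h
  | nor a b _ _ iha ihb =>
    obtain ⟨L, h1, h2⟩ := iha
    obtain ⟨L', h3, h4⟩ := ihb
    refine ⟨cnor a b :: (L ++ L'), List.mem_cons_self, (h2.app h4).cons ?_⟩
    exact Or.inr (Or.inl ⟨(a, b), rfl, List.mem_append_left _ h1, List.mem_append_right _ h3⟩)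
  | bex i j a h _ ih =>
    obtain ⟨L, h1, h2⟩ := ih
    exact ⟨_ :: L, List.mem_cons_self, h2.cons (Or.inr (Or.inr (Or.inl ⟨(i, j, a), h, rfl, h1⟩)))⟩
  | fad i j k a hi hj _ ih =>
    obtain ⟨L, h1, h2⟩ := ih
    exact ⟨_ :: L, List.mem_cons_self,
      h2.cons (Or.inr (Or.inr (Or.inr (Or.inl ⟨(i, j, k, a), hi, hj, rfl, h1⟩))))⟩
  | fml i j k a hi hj _ ih =>
    obtain ⟨L, h1, h2⟩ := ih
    exact ⟨_ :: L, List.mem_cons_self,
      h2.cons (Or.inr (Or.inr (Or.inr (Or.inr (Or.inl ⟨(i, j, k, a), hi, hj, rfl, h1⟩)))))⟩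
  | fz k a _ ih =>
    obtain ⟨L, h1, h2⟩ := ih
    exact ⟨_ :: L, List.mem_cons_self,
      h2.cons (Or.inr (Or.inr (Or.inr (Or.inr (Or.inr (Or.inl ⟨(k, a), rfl, h1⟩))))))⟩
  | fo k a _ ih =>
    obtain ⟨L, h1, h2⟩ := ih
    exact ⟨_ :: L, List.mem_cons_self,
      h2.cons (Or.inr (Or.inr (Or.inr (Or.inr (Or.inr (Or.inr ⟨(k, a), rfl, h1⟩))))))⟩

lemma B0_of {L : List ℕ} (hL : Gd L) (c : ℕ) (hc : c ∈ L) : B0 c := by
  induction c using Nat.strong_induction_on with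
  | _ c ih =>
    rcases hL c hc with h | ⟨q, h1, h2, h3⟩ | ⟨q, h1, h2, h3⟩ | ⟨q, h1, h2, h3, h4⟩ |
      ⟨q, h1, h2, h3, h4⟩ | ⟨q, h1, h2⟩ | ⟨q, h1, h2⟩
    · exact .atom c h
    · rw [h1]
      exact .nor _ _ (ih _ (by rw [h1]; exact lt_cnor_left _ _) h2)
        (ih _ (by rw [h1]; exact lt_cnor_right _ _) h3)
    · rw [h2]
      exact .bex _ _ _ h1 (ih _ (by rw [h2]; exact lt_cex_cand _ _ _) h3)
    · rw [h3]
      exact .fad _ _ _ _ h1 h2 (ih _ (by rw [h3]; exact lt_cex_cand _ _ _) h4)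
    · rw [h3]
      exact .fml _ _ _ _ h1 h2 (ih _ (by rw [h3]; exact lt_cex_cand _ _ _) h4)
    · rw [h1]
      exact .fz _ _ (ih _ (by rw [h1]; exact lt_cex_cand _ _ _) h2)
    · rw [h1]
      exact .fo _ _ (ih _ (by rw [h1]; exact lt_cex_cand _ _ _) h2)

/-! ### `Lc` is arithmetical -/

lemma ar_Lc (h : S_ARCL) {α : Type} [Primcodable α] {f : α → ℕ} {g : α → List ℕ} (hf : Primrec f)
    (hg : Primrec g) : Arith fun a => Lc (f a) (g a) := by
  have hf' : ∀ {β : Type} [Primcodable β], Primrec fun p : α × β => f p.1 :=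
    fun {β} _ => hf.comp Primrec.fst
  have hg' : ∀ {β : Type} [Primcodable β], Primrec fun p : α × β => g p.1 :=
    fun {β} _ => hg.comp Primrec.fst
  have s : ∀ {β : Type} [Primcodable β], Primrec fun p : α × β => p.2 :=
    fun {β} _ => Primrec.snd
  have q1 : ∀ {β γ : Type} [Primcodable β] [Primcodable γ],
      Primrec fun p : α × (β × γ) => p.2.1 := fun {β γ} _ _ => Primrec.fst.comp Primrec.snd
  have q2 : ∀ {β γ : Type} [Primcodable β] [Primcodable γ],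
      Primrec fun p : α × (β × γ) => p.2.2 := fun {β γ} _ _ => Primrec.snd.comp Primrec.snd
  have q21 : ∀ {β γ δ : Type} [Primcodable β] [Primcodable γ] [Primcodable δ],
      Primrec fun p : α × (β × γ × δ) => p.2.2.1 := fun {β γ δ} _ _ _ => Primrec.fst.comp q2
  have q22 : ∀ {β γ δ : Type} [Primcodable β] [Primcodable γ] [Primcodable δ],
      Primrec fun p : α × (β × γ × δ) => p.2.2.2 := fun {β γ δ} _ _ _ => Primrec.snd.comp q2
  have q221 : Primrec fun p : α × (ℕ × ℕ × ℕ × ℕ) => p.2.2.2.1 := Primrec.fst.comp q22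
  have q222 : Primrec fun p : α × (ℕ × ℕ × ℕ × ℕ) => p.2.2.2.2 := Primrec.snd.comp q22
  refine ar_or h (ar_prim h (Primrec.nat_lt.comp (Primrec.nat_mod.comp hf (Primrec.const 8))
    (Primrec.const 6))) (ar_or h ?_ (ar_or h ?_ (ar_or h ?_ (ar_or h ?_ (ar_or h ?_ ?_)))))
  · exact ar_ex h (ℕ × ℕ) (P := fun p : α × (ℕ × ℕ) => f p.1 = cnor p.2.1 p.2.2 ∧
      p.2.1 ∈ g p.1 ∧ p.2.2 ∈ g p.1)
      (ar_and h (ar_eq h hf' (p_cnor q1 q2)) (ar_and h (ar_mem h q1 hg') (ar_mem h q2 hg')))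
  · exact ar_ex h (ℕ × ℕ × ℕ) (P := fun p : α × (ℕ × ℕ × ℕ) => ¬ p.2.1 = p.2.2.1 ∧
      f p.1 = cex p.2.1 (cand (clt p.2.1 p.2.2.1) p.2.2.2) ∧ p.2.2.2 ∈ g p.1)
      (ar_and h (ar_not h (ar_eq h q1 q21))
        (ar_and h (ar_eq h hf' (p_cex q1 (p_cand (p_clt q1 q21) q22))) (ar_mem h q22 hg')))
  · exact ar_ex h (ℕ × ℕ × ℕ × ℕ) (P := fun p : α × (ℕ × ℕ × ℕ × ℕ) => ¬ p.2.2.2.1 = p.2.1 ∧
      ¬ p.2.2.2.1 = p.2.2.1 ∧
      f p.1 = cex p.2.2.2.1 (cand (cad p.2.1 p.2.2.1 p.2.2.2.1) p.2.2.2.2) ∧ p.2.2.2.2 ∈ g p.1)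
      (ar_and h (ar_not h (ar_eq h q221 q1)) (ar_and h (ar_not h (ar_eq h q221 q21))
        (ar_and h (ar_eq h hf' (p_cex q221 (p_cand (p_cad q1 q21 q221) q222)))
          (ar_mem h q222 hg'))))
  · exact ar_ex h (ℕ × ℕ × ℕ × ℕ) (P := fun p : α × (ℕ × ℕ × ℕ × ℕ) => ¬ p.2.2.2.1 = p.2.1 ∧
      ¬ p.2.2.2.1 = p.2.2.1 ∧
      f p.1 = cex p.2.2.2.1 (cand (cml p.2.1 p.2.2.1 p.2.2.2.1) p.2.2.2.2) ∧ p.2.2.2.2 ∈ g p.1)
      (ar_and h (ar_not h (ar_eq h q221 q1)) (ar_and h (ar_not h (ar_eq h q221 q21))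
        (ar_and h (ar_eq h hf' (p_cex q221 (p_cand (p_cml q1 q21 q221) q222)))
          (ar_mem h q222 hg'))))
  · exact ar_ex h (ℕ × ℕ) (P := fun p : α × (ℕ × ℕ) =>
      f p.1 = cex p.2.1 (cand (cz p.2.1) p.2.2) ∧ p.2.2 ∈ g p.1)
      (ar_and h (ar_eq h hf' (p_cex q1 (p_cand (p_cz q1) q2))) (ar_mem h q2 hg'))
  · exact ar_ex h (ℕ × ℕ) (P := fun p : α × (ℕ × ℕ) =>
      f p.1 = cex p.2.1 (cand (co p.2.1) p.2.2) ∧ p.2.2 ∈ g p.1)
      (ar_and h (ar_eq h hf' (p_cex q1 (p_cand (p_co q1) q2))) (ar_mem h q2 hg'))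

/-- **Job B0A.** -/
theorem t_B0A : S_B0A := by
  intro h
  have h1 : B0 = fun c => ∃ L : List ℕ, c ∈ L ∧ Gd L := by
    funext c
    exact propext ⟨exists_list, fun ⟨L, hc, hL⟩ => B0_of hL c hc⟩
  rw [h1]
  refine ar_ex h (List ℕ) (P := fun p : ℕ × List ℕ => p.1 ∈ p.2 ∧ Gd p.2) (ar_and h
    (ar_mem h Primrec.fst Primrec.snd) ?_)
  exact ar_all h ℕ (P := fun p : (ℕ × List ℕ) × ℕ => p.2 ∈ p.1.2 → Lc p.2 p.1.2)
    (ar_imp h (ar_mem h Primrec.snd (Primrec.snd.comp Primrec.fst))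
      (ar_Lc h Primrec.snd (Primrec.snd.comp Primrec.fst)))

end Q247.AR
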