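import Mathlib
import Pool.Agent.Q109.AS.Stm

/-! Job LOW of project AS. -/

set_option autoImplicit false

namespace Pool.Agent.Q109.AS

theorem low_core (K : ℕ) (hK : 1 ≤ K) (hW : S_WIN) (n : ℕ) (t : ℝ) (ht : 64 * (K : ℝ) + 4 ≤ t)
    (hn : (n : ℝ) = t ^ (4 * K + 1)) (a : ℕ → ℕ)
    (ha : ∀ i, 1 ≤ i → i ≤ n → (a i : ℝ) ≤ t ^ (3 * K)) :
    t ^ (3 * K) / (64 * K) ≤ ((S n a).ncard : ℝ) := by
  have hKr : (1 : ℝ) ≤ K := by exact_mod_cast hK
  have ht1 : (1 : ℝ) ≤ t := by linarith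
  have ht0 : 0 < t := by linarith
  obtain ⟨B, hB⟩ : ∃ B : ℝ, B = t ^ (3 * K) := ⟨_, rfl⟩
  have hB1 : 1 ≤ B := by rw [hB]; exact one_le_pow₀ ht1
  obtain ⟨M, hM⟩ : ∃ M : ℕ, M = ⌈B⌉₊ := ⟨_, rfl⟩
  have hMB : B ≤ M := by rw [hM]; exact Nat.le_ceil B
  have hM2 : (M : ℝ) ≤ 2 * B := by
    have := Nat.ceil_lt_add_one (show 0 ≤ B by linarith)
    rw [← hM] at this
    linarith
  have hM1 : 1 ≤ M := by
    have : (1 : ℝ) ≤ M := hB1.trans hMB
    exact_mod_cast this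
  have haM : ∀ i, 1 ≤ i → i ≤ n → a i ≤ M := fun i h1 h2 => by
    have h3 := ha i h1 h2
    rw [← hB] at h3
    have := h3.trans hMB
    exact_mod_cast this
  have hT : t ≤ t ^ (K + 1) := by
    calc t = t ^ 1 := (pow_one t).symm
      _ ≤ t ^ (K + 1) := pow_le_pow_right₀ ht1 (by omega)
  have hnB : (n : ℝ) = B * t ^ (K + 1) := by
    rw [hn, hB, ← pow_add]
    congr 1
    omega
  obtain ⟨Q, hQ⟩ : ∃ Q : ℕ, Q = n / M := ⟨_, rfl⟩
  have hQn : Q * M ≤ n := by rw [hQ]; exact Nat.div_mul_le_self n M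
  have hQ2 : n < (Q + 1) * M := by
    rw [hQ]
    have h1 := Nat.div_add_mod n M
    have h2 := Nat.mod_lt n (show 0 < M by omega)
    calc n = M * (n / M) + n % M := h1.symm
      _ < M * (n / M) + M := by omega
      _ = (n / M + 1) * M := by ring
  have hQ1 : 1 ≤ Q := by
    rw [hQ]
    refine (Nat.one_le_div_iff (by omega)).2 ?_
    have : (M : ℝ) ≤ n := by
      rw [hnB]
      calc (M : ℝ) ≤ 2 * B := hM2
        _ = B * 2 := by ring
        _ ≤ B * t ^ (K + 1) := by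
          apply mul_le_mul_of_nonneg_left _ (by linarith)
          linarith
    exact_mod_cast this
  obtain ⟨X, hX⟩ : ∃ X : ℕ, X = (Q - 1) / (16 * K) := ⟨_, rfl⟩
  have hX1 : 16 * K * X ≤ Q - 1 := by rw [hX]; exact Nat.mul_div_le _ _
  have hX2 : Q - 1 < 16 * K * (X + 1) := by
    rw [hX]
    exact Nat.lt_mul_div_succ _ (by omega)
  obtain ⟨y, hy1, hy2⟩ := hW K M X n a hK hM1 haM (by
    calc (16 * K * X + 1) * M ≤ Q * M := Nat.mul_le_mul_right _ (by omega)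
      _ ≤ n := hQn)
  -- the lower bound of `X`
  have hXr : t ^ (K + 1) / (64 * K) ≤ (X : ℝ) := by
    have h1 : (n : ℝ) < (Q + 1) * M := by exact_mod_cast hQ2
    have h2 : (Q : ℝ) ≤ 16 * K * (X + 1) := by
      have : Q ≤ 16 * K * (X + 1) := by omega
      exact_mod_cast this
    have h3 : (n : ℝ) < (16 * K * (X + 1) + 1) * (2 * B) := by
      calc (n : ℝ) < (Q + 1) * M := h1
        _ ≤ (16 * K * (X + 1) + 1) * (2 * B) := by
          apply mul_le_mul (by linarith) hM2 (by positivity)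
          have : (0 : ℝ) ≤ X := Nat.cast_nonneg X
          positivity
    rw [hnB] at h3
    have h4 : t ^ (K + 1) < 2 * (16 * K * (X + 1) + 1) := by
      have h5 : B * t ^ (K + 1) < B * (2 * (16 * K * (X + 1) + 1)) := by
        calc B * t ^ (K + 1) < (16 * K * (X + 1) + 1) * (2 * B) := h3
          _ = B * (2 * (16 * K * (X + 1) + 1)) := by ring
      exact lt_of_mul_lt_mul_left h5 (by linarith)
    rw [div_le_iff₀ (by positivity)]
    nlinarith
  have hyr : t ^ (2 * K - 1) ≤ (y : ℝ) := by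
    have h1 : ((t ^ (2 * K - 1)) ^ (3 * K) : ℝ) ≤ (y : ℝ) ^ (3 * K) := by
      calc ((t ^ (2 * K - 1)) ^ (3 * K) : ℝ) = (t ^ (3 * K)) ^ (2 * K - 1) := by
            rw [← pow_mul, ← pow_mul, mul_comm]
        _ = B ^ (2 * K - 1) := by rw [hB]
        _ ≤ (M : ℝ) ^ (2 * K - 1) := pow_le_pow_left₀ (by linarith) hMB _
        _ ≤ (y : ℝ) ^ (3 * K) := by exact_mod_cast hy1
    exact le_of_pow_le_pow_left₀ (by omega) (Nat.cast_nonneg y) h1
  calc t ^ (3 * K) / (64 * K) = t ^ (K + 1) / (64 * K) * t ^ (2 * K - 1) := by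
        rw [div_mul_eq_mul_div, ← pow_add]
        congr 2
        omega
    _ ≤ (X : ℝ) * y := mul_le_mul hXr hyr (by positivity) (Nat.cast_nonneg X)
    _ ≤ ((S n a).ncard : ℝ) := by exact_mod_cast hy2

/-- **LOW** -/
theorem low : S_LOW := by
  intro hW K hK
  have hKr : (1 : ℝ) ≤ K := by exact_mod_cast hK
  refine ⟨1 / (64 * K), by positivity, (64 * K + 4) ^ (4 * K + 1), fun n hn a ha => ?_⟩
  obtain ⟨t, ht⟩ : ∃ t : ℝ, t = (n : ℝ) ^ (((4 * K + 1 : ℕ) : ℝ)⁻¹) := ⟨_, rfl⟩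
  have hn0 : (0 : ℝ) ≤ n := Nat.cast_nonneg n
  have ht0 : 0 ≤ t := by rw [ht]; positivity
  have h1 : (n : ℝ) = t ^ (4 * K + 1) := by
    rw [ht, Real.rpow_inv_natCast_pow hn0 (by omega)]
  have h2 : (n : ℝ) ^ (3 * (K : ℝ) / (4 * K + 1)) = t ^ (3 * K) := by
    rw [ht, ← Real.rpow_natCast, ← Real.rpow_mul hn0]
    congr 1
    push_cast
    field_simp
  have h3 : 64 * (K : ℝ) + 4 ≤ t := by
    have h4 : (64 * (K : ℝ) + 4) ^ (4 * K + 1) ≤ t ^ (4 * K + 1) := by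
      rw [← h1]
      exact_mod_cast hn
    exact le_of_pow_le_pow_left₀ (by omega) ht0 h4
  have h5 := low_core K hK hW n t h3 h1 a (fun i hi1 hi2 => by
    rw [← h2]
    exact ha i hi1 hi2)
  rw [h2]
  calc 1 / (64 * (K : ℝ)) * t ^ (3 * K) = t ^ (3 * K) / (64 * K) := by ring
    _ ≤ _ := h5

end Pool.Agent.Q109.AS
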