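import Mathlib
import Pool.Agent.Q49.MR2.Stm

/-! Job E of project MR2 (helper49): a representation of `g_χ` gives a solution. -/

set_option autoImplicit false

namespace Q247.MR2_E

open Q49.MR Q49.MR2 Module

/-- every functional on `E4` is `w ↦ t4 (h w)` with `h ∈ E4` -/
theorem dual (h3 : S2_TR) (h8 : S2_B8) (K L : Type) [Field K] [Finite K] [Field L] [Finite L]
    [Algebra K L] (σ : L ≃ₐ[K] L) (hσ : Cyc2 σ) (ℓ : E4 σ →ₗ[K] K) :
    ∃ b ∈ E4 σ, ∀ w : E4 σ, algebraMap K L (ℓ w) = t4 σ (b * (w : L)) := by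
  obtain ⟨g, hg⟩ := LinearMap.exists_extend ℓ
  have hnd := traceForm_nondegenerate K L
  let e := (Algebra.traceForm K L).toDual hnd
  obtain ⟨b, hb⟩ := e.surjective g
  have hb' : ∀ x, g x = Algebra.trace K L (b * x) := by
    intro x
    rw [← hb]
    simp [e, LinearMap.BilinForm.toDual_def, Algebra.traceForm_apply]
  refine ⟨b + σ (σ (σ (σ b))), ?_, ?_⟩
  · show σ (σ (σ (σ (b + σ (σ (σ (σ b))))))) = b + σ (σ (σ (σ b)))
    simp only [map_add, h8 K L σ hσ b]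
    ring
  · intro w
    have hw : σ (σ (σ (σ (w : L)))) = (w : L) := w.2
    have h1 : ℓ w = g w := by rw [← hg]; rfl
    rw [h1, hb', h3 K L σ hσ]
    simp only [t4, map_mul, map_add, hw]
    ring

theorem eee (h1 : S2_KV) (h2 : S2_IND) (h3 : S2_TR) (h4 : S2_B8) : S2_E := by
  rintro K L _ _ _ _ _ σ hσ θ m o χ ho hθ hm hχ ⟨H, Y, Z, hrep⟩
  have h2L : (2 : L) = 0 := by
    have := congrArg (algebraMap K L) hσ.two
    rwa [map_ofNat, map_zero] at this
  have hind := h2 K L σ hσ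
  obtain ⟨h, hh, hH⟩ := dual h3 h4 K L σ hσ H
  obtain ⟨y, hy, hY⟩ := dual h3 h4 K L σ hσ Y
  obtain ⟨z, hz, hZ⟩ := dual h3 h4 K L σ hσ Z
  have hh4 : σ (σ (σ (σ h))) = h := hh
  have hy4 : σ (σ (σ (σ y))) = y := hy
  have hz4 : σ (σ (σ (σ z))) = z := hz
  -- the representation in `L`
  have hS : ∀ w ∈ E4 σ, bL σ θ m χ w w = t4 σ (h * w) ^ 2 + t4 σ (h * w) * t4 σ w +
      t4 σ (y * w) * t4 σ (z * w) := by
    intro w hw
    have e1 := congrArg (algebraMap K L) (hrep ⟨w, hw⟩)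
    obtain ⟨e2, e3, -⟩ := h1 K L σ hσ θ m o χ ho hθ hm hχ ⟨w, hw⟩ ⟨w, hw⟩
    rw [e3, map_add, map_add, map_pow, map_mul, map_mul, hH, hY, hZ, e2] at e1
    exact e1
  -- polarization
  have hpol : ∀ w ∈ E4 σ, ∀ w' ∈ E4 σ, bL σ θ m χ w w' + bL σ θ m χ w' w =
      2 * (t4 σ (h * w) * t4 σ (h * w')) + t4 σ (h * w) * t4 σ w' + t4 σ (h * w') * t4 σ w +
      t4 σ (y * w) * t4 σ (z * w') + t4 σ (y * w') * t4 σ (z * w) := by
    intro w hw w' hw'
    have e1 := hS w hw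
    have e2 := hS w' hw'
    have e3 := hS (w + w') ((E4 σ).add_mem hw hw')
    simp only [bL, t4, map_add, map_mul, mul_add, add_mul] at e1 e2 e3 ⊢
    linear_combination e3 - e1 - e2
  -- the coefficients of the polar form
  have hC : ∀ w ∈ E4 σ, 2 * nn θ * w + σ (σ (σ (nu σ θ m))) * σ (σ (σ w)) + nu σ θ m * σ w +
      χ * σ (σ w) - (2 * h * t4 σ (h * w) + t4 σ (h * w) + h * t4 σ w + z * t4 σ (y * w) +
      y * t4 σ (z * w)) = 0 := by
    intro w hw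
    have hw4 : σ (σ (σ (σ w))) = w := hw
    refine (hind (2 * nn θ * w + σ (σ (σ (nu σ θ m))) * σ (σ (σ w)) + nu σ θ m * σ w +
        χ * σ (σ w) - (2 * h * t4 σ (h * w) + t4 σ (h * w) + h * t4 σ w + z * t4 σ (y * w) +
        y * t4 σ (z * w)))
      (2 * σ (nn θ) * σ w + nu σ θ m * w + σ (nu σ θ m) * σ (σ w) +
        σ χ * σ (σ (σ w)) - (2 * σ h * t4 σ (h * w) + t4 σ (h * w) + σ h * t4 σ w +
        σ z * t4 σ (y * w) + σ y * t4 σ (z * w)))
      (2 * σ (σ (nn θ)) * σ (σ w) + σ (nu σ θ m) * σ w + σ (σ (nu σ θ m)) * σ (σ (σ w)) +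
        χ * w - (2 * σ (σ h) * t4 σ (h * w) + t4 σ (h * w) + σ (σ h) * t4 σ w +
        σ (σ z) * t4 σ (y * w) + σ (σ y) * t4 σ (z * w)))
      (2 * σ (σ (σ (nn θ))) * σ (σ (σ w)) + σ (σ (nu σ θ m)) * σ (σ w) +
        σ (σ (σ (nu σ θ m))) * w +
        σ χ * σ w - (2 * σ (σ (σ h)) * t4 σ (h * w) + t4 σ (h * w) + σ (σ (σ h)) * t4 σ w +
        σ (σ (σ z)) * t4 σ (y * w) + σ (σ (σ y)) * t4 σ (z * w)))
      ?_).1
    intro w' hw'
    have hw'4 : σ (σ (σ (σ w'))) = w' := hw'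
    have e := hpol w hw w' hw'
    simp only [bL, t4, map_mul, hw4, hw'4] at e ⊢
    linear_combination e
  -- the equations
  have hcoef := hind
    (2 * nn θ - (2 * h * h + h + h + z * y + y * z))
    (nu σ θ m - (2 * h * σ h + σ h + h + z * σ y + y * σ z))
    (χ - (2 * h * σ (σ h) + σ (σ h) + h + z * σ (σ y) + y * σ (σ z)))
    (σ (σ (σ (nu σ θ m))) - (2 * h * σ (σ (σ h)) + σ (σ (σ h)) + h + z * σ (σ (σ y)) +
      y * σ (σ (σ z))))
    (by
      intro w hw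
      have hw4 : σ (σ (σ (σ w))) = w := hw
      have e := hC w hw
      simp only [t4, map_mul] at e
      linear_combination e)
  obtain ⟨-, hc1, hc2, hc3⟩ := hcoef
  have hc1' := congrArg σ hc1
  have hc1'' := congrArg σ hc1'
  have hc1''' := congrArg σ hc1''
  have hc2' := congrArg σ hc2
  simp only [map_sub, map_add, map_mul, map_zero, map_ofNat] at hc1' hc1'' hc1''' hc2'
  rw [hh4, hy4, hz4] at hc1'''
  -- the diagonal part
  have hdiag : ∀ w ∈ E4 σ, (nn θ - h ^ 2 - h - y * z) * w ^ 2 +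
      σ (nn θ - h ^ 2 - h - y * z) * σ w ^ 2 + σ (σ (nn θ - h ^ 2 - h - y * z)) * σ (σ w) ^ 2 +
      σ (σ (σ (nn θ - h ^ 2 - h - y * z))) * σ (σ (σ w)) ^ 2 = 0 := by
    intro w hw
    have hw4 : σ (σ (σ (σ w))) = w := hw
    have e := hS w hw
    simp only [bL, t4, map_mul, map_sub, map_pow, hw4] at e ⊢
    linear_combination e - hc1 * w * σ w - hc1' * σ w * σ (σ w) - hc1'' * σ (σ w) * σ (σ (σ w)) -
      hc1''' * σ (σ (σ w)) * w - hc2 * w * σ (σ w) - hc2' * σ w * σ (σ (σ w))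
  obtain ⟨r, hr⟩ : ∃ r : L, nn θ - h ^ 2 - h - y * z = r * r := by
    have hcar : ringChar L = 2 := by
      have hp : CharP L 2 := CharTwo.of_one_ne_zero_of_two_eq_zero one_ne_zero h2L
      exact ringChar.eq L 2
    exact FiniteField.isSquare_of_char_two hcar _
  have hr0 := hind r (σ r) (σ (σ r)) (σ (σ (σ r))) (by
    intro w hw
    have e := hdiag w hw
    rw [hr] at e
    simp only [map_mul] at e
    have e2 : (r * w + σ r * σ w + σ (σ r) * σ (σ w) + σ (σ (σ r)) * σ (σ (σ w))) ^ 2 = 0 := by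
      linear_combination e + (r * w * (σ r * σ w) + r * w * (σ (σ r) * σ (σ w)) +
        r * w * (σ (σ (σ r)) * σ (σ (σ w))) + σ r * σ w * (σ (σ r) * σ (σ w)) +
        σ r * σ w * (σ (σ (σ r)) * σ (σ (σ w))) +
        σ (σ r) * σ (σ w) * (σ (σ (σ r)) * σ (σ (σ w)))) * h2L
    exact pow_eq_zero_iff two_ne_zero |>.1 e2)
  rw [hr0.1, mul_zero] at hr
  refine ⟨h, hh, y, hy, z, hz, ?_, ?_⟩
  · linear_combination -hr
  · linear_combination -hc1 - h * σ h * h2L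

end Q247.MR2_E
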