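import Pool.Agent.Q88.PS.Stm

/-!
# Project PS, job DEN
-/

set_option autoImplicit false

open MeasureTheory Set Filter Topology
open scoped ENNReal NNReal

namespace Pool.Agent.Q247.PSDen

open Pool.Agent.Q88.PS

lemma res_affine (lam : ℝ) (w : List D) : ∀ σ : ℝ,
    res lam σ w = 8 ^ w.length * σ + res lam 0 w := by
  induction w with
  | nil => intro σ; simp [res]
  | cons d w ih =>
    intro σ
    simp only [res, List.length_cons]
    rw [ih (8 * σ - dl lam d), ih (8 * 0 - dl lam d)]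
    ring

lemma mem_of_res (lam : ℝ) (X : Set ℝ) (hX : ∀ (τ : ℝ) (d : D), 8 * τ - dl lam d ∈ X → τ ∈ X)
    (w : List D) : ∀ σ : ℝ, res lam σ w ∈ X → σ ∈ X := by
  induction w with
  | nil => intro σ h; exact h
  | cons d w ih =>
    intro σ h
    exact hX σ d (ih _ h)

lemma exists_word (h : S_step) (lam : ℝ) (hl : lam ∈ Icc (1 : ℝ) (3 / 2)) (n : ℕ) :
    ∀ τ ∈ Icc (0 : ℝ) (LL lam), ∃ w : List D, w.length = n ∧
      res lam τ w ∈ Icc (0 : ℝ) (LL lam) := by
  induction n with
  | zero => intro τ hτ; exact ⟨[], rfl, hτ⟩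
  | succ n ih =>
    intro τ hτ
    obtain ⟨d, hd⟩ := h lam hl τ hτ
    obtain ⟨w, hw, hw'⟩ := ih _ hd
    exact ⟨d :: w, by simp [hw], hw'⟩

lemma mem_ball_iff (L c : ℝ) (n : ℕ) (σ : ℝ) :
    σ ∈ Metric.closedBall ((L / 2 - c) / 8 ^ n) (L / 2 / 8 ^ n) ↔
      8 ^ n * σ + c ∈ Icc (0 : ℝ) L := by
  have h8 : (0 : ℝ) < 8 ^ n := by positivity
  rw [Metric.mem_closedBall, Real.dist_eq, le_div_iff₀ h8, ← abs_of_pos h8, ← abs_mul,
    abs_of_pos h8]
  have : (σ - (L / 2 - c) / 8 ^ n) * 8 ^ n = 8 ^ n * σ + c - L / 2 := by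
    field_simp
    ring
  rw [this, abs_le, mem_Icc]
  constructor <;> rintro ⟨h1, h2⟩ <;> constructor <;> linarith

lemma vol_preimage (c : ℝ) (n : ℕ) (A : Set ℝ) :
    volume {σ : ℝ | 8 ^ n * σ + c ∈ A} = ENNReal.ofReal ((1 / 8) ^ n) * volume A := by
  have h8 : (8 : ℝ) ^ n ≠ 0 := by positivity
  have : {σ : ℝ | 8 ^ n * σ + c ∈ A} = ((8 : ℝ) ^ n * ·) ⁻¹' ((· + c) ⁻¹' A) := rfl
  rw [this, Real.volume_preimage_mul_left h8, measure_preimage_add_right]
  congr 2
  rw [abs_of_pos (by positivity), one_div, inv_pow]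

theorem den (h : S_step) : S_den := by
  intro lam hl X hXm hX hpos
  set L := LL lam with hL
  have hL0 : 0 < L := by
    have := hl.1
    simp only [hL, LL]
    linarith
  set Y : Set ℝ := Ioo (0 : ℝ) L \ X with hY
  have hYm : MeasurableSet Y := measurableSet_Ioo.diff hXm
  have hdens := IsUnifLocDoublingMeasure.ae_tendsto_measure_inter_div (volume : Measure ℝ) Y 1
  set v := volume (Ioo (0 : ℝ) L ∩ X) with hv
  have hvL : v ≤ ENNReal.ofReal L := by
    calc v ≤ volume (Ioo (0 : ℝ) L) := measure_mono inter_subset_left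
      _ = ENNReal.ofReal L := by simp
  have hvtop : v ≠ ⊤ := ne_top_of_le_ne_top ENNReal.ofReal_ne_top hvL
  -- the bound
  have key : ∀ τ ∈ Y, ∀ n : ℕ, ∃ m : ℝ, τ ∈ Metric.closedBall m (L / 2 / 8 ^ n) ∧
      volume (Y ∩ Metric.closedBall m (L / 2 / 8 ^ n)) + ENNReal.ofReal ((1 / 8) ^ n) * v ≤
        volume (Metric.closedBall m (L / 2 / 8 ^ n)) := by
    intro τ hτ n
    obtain ⟨w, hw, hw'⟩ := exists_word h lam hl n τ ⟨hτ.1.1.le, hτ.1.2.le⟩
    set c := res lam 0 w with hc
    have haff : ∀ σ, res lam σ w = 8 ^ n * σ + c := fun σ => by rw [res_affine, hw]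
    refine ⟨(L / 2 - c) / 8 ^ n, ?_, ?_⟩
    · rw [mem_ball_iff, ← haff]
      exact hw'
    · rw [hv, ← vol_preimage c n]
      have hm : MeasurableSet {σ : ℝ | 8 ^ n * σ + c ∈ Ioo (0 : ℝ) L ∩ X} := by
        have : Measurable fun σ : ℝ => 8 ^ n * σ + c := by fun_prop
        exact this (measurableSet_Ioo.inter hXm)
      rw [← measure_union _ hm]
      · refine measure_mono (union_subset inter_subset_right ?_)
        intro σ hσ
        rw [mem_ball_iff]
        exact ⟨hσ.1.1.le, hσ.1.2.le⟩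
      · rw [Set.disjoint_left]
        rintro σ ⟨hσ, -⟩ hσ'
        exact hσ.2 (mem_of_res lam X hX w σ (by rw [haff]; exact hσ'.2))
  have hfalse : ∀ᵐ τ ∂(volume.restrict Y), False := by
    filter_upwards [hdens, ae_restrict_mem hYm] with τ hτ hτY
    choose m hm1 hm2 using key τ hτY
    have hlim := hτ (l := atTop) m (fun n : ℕ => L / 2 / 8 ^ n) ?_ ?_
    · have hratio : ∀ n : ℕ, volume (Y ∩ Metric.closedBall (m n) (L / 2 / 8 ^ n)) /
          volume (Metric.closedBall (m n) (L / 2 / 8 ^ n)) ≤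
            (ENNReal.ofReal L - v) / ENNReal.ofReal L := by
        intro n
        have hvol : volume (Metric.closedBall (m n) (L / 2 / 8 ^ n)) =
            ENNReal.ofReal ((1 / 8) ^ n) * ENNReal.ofReal L := by
          rw [Real.volume_closedBall, ← ENNReal.ofReal_mul (by positivity)]
          congr 1
          rw [one_div, inv_pow]
          field_simp
        have h1 := hm2 n
        rw [hvol] at h1 ⊢
        have h2 : volume (Y ∩ Metric.closedBall (m n) (L / 2 / 8 ^ n)) ≤
            ENNReal.ofReal ((1 / 8) ^ n) * (ENNReal.ofReal L - v) := by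
          rw [ENNReal.mul_sub (fun _ _ => ENNReal.ofReal_ne_top)]
          exact ENNReal.le_sub_of_add_le_right (ENNReal.mul_ne_top ENNReal.ofReal_ne_top hvtop) h1
        calc _ ≤ ENNReal.ofReal ((1 / 8) ^ n) * (ENNReal.ofReal L - v) /
              (ENNReal.ofReal ((1 / 8) ^ n) * ENNReal.ofReal L) := ENNReal.div_le_div_right h2 _
          _ = _ := ENNReal.mul_div_mul_left _ _ (by positivity) ENNReal.ofReal_ne_top
      have h1 : (1 : ℝ≥0∞) ≤ (ENNReal.ofReal L - v) / ENNReal.ofReal L :=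
        le_of_tendsto' hlim hratio
      have hLne : ENNReal.ofReal L ≠ 0 := by positivity
      have h2 : (ENNReal.ofReal L - v) / ENNReal.ofReal L < 1 := by
        rw [ENNReal.div_lt_iff (Or.inl hLne) (Or.inl ENNReal.ofReal_ne_top), one_mul]
        exact ENNReal.sub_lt_self ENNReal.ofReal_ne_top hLne hpos.ne'
      exact absurd h1 (not_le.2 h2)
    · rw [tendsto_nhdsWithin_iff]
      constructor
      · have h0 : Tendsto (fun n : ℕ => ((8 : ℝ) ^ n)) atTop atTop :=
          tendsto_pow_atTop_atTop_of_one_lt (by norm_num)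
        exact h0.const_div_atTop _
      · exact Eventually.of_forall fun n => by
          show (0 : ℝ) < L / 2 / 8 ^ n
          positivity
    · exact Eventually.of_forall fun n => by
        rw [one_mul]
        exact hm1 n
  rw [Filter.eventually_false_iff_eq_bot, ae_eq_bot, Measure.restrict_eq_zero] at hfalse
  exact hfalse

end Pool.Agent.Q247.PSDen
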